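import Pool.Agent.W14.US.Stm

set_option autoImplicit false
open Complex MeasureTheory
open scoped ContDiff

namespace Pool.Agent.W83.US

open Pool.Agent.W14.US

lemma co_cont (b : Bool) : Continuous (co b) := by
  cases b
  · exact Complex.continuous_re
  · exact Complex.continuous_im

lemma fderiv_zero_out {f : ℂ → ℂ} {R : ℝ} (hf : ∀ z, R < ‖z‖ → f z = 0) {z : ℂ} (hz : R < ‖z‖) :
    fderiv ℝ f z = 0 := by
  have h : f =ᶠ[nhds z] fun _ => 0 := by
    have h1 : {w : ℂ | R < ‖w‖} ∈ nhds z := (isOpen_lt continuous_const continuous_norm).mem_nhds hz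
    filter_upwards [h1] with w hw
    exact hf w hw
  rw [h.fderiv_eq]
  simp

lemma dd_zero_out {f : ℂ → ℂ} {R : ℝ} (hf : ∀ z, R < ‖z‖ → f z = 0) {z : ℂ} (hz : R < ‖z‖) :
    dd f z = 0 := by
  simp [dd, fderiv_zero_out hf hz]

lemma db_zero_out {f : ℂ → ℂ} {R : ℝ} (hf : ∀ z, R < ‖z‖ → f z = 0) {z : ℂ} (hz : R < ‖z‖) :
    db f z = 0 := by
  simp [db, fderiv_zero_out hf hz]

lemma dd_lin {f g : ℂ → ℂ} (a b z : ℂ) (hf : DifferentiableAt ℝ f z)
    (hg : DifferentiableAt ℝ g z) :
    dd (fun w => a * f w + b * g w) z = a * dd f z + b * dd g z := by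
  have h1 : HasFDerivAt (fun w => a * f w + b * g w) (a • fderiv ℝ f z + b • fderiv ℝ g z) z :=
    (hf.hasFDerivAt.const_mul a).add (hg.hasFDerivAt.const_mul b)
  unfold dd
  rw [h1.fderiv]
  simp only [ContinuousLinearMap.add_apply, ContinuousLinearMap.smul_apply, smul_eq_mul]
  ring

lemma ad_cont {f : ℂ → ℂ} (h : Ad f) : Continuous f := h.1.continuous

lemma ad_diff {f : ℂ → ℂ} (h : Ad f) : Differentiable ℝ f :=
  h.1.differentiable (by simp)

lemma ad_sub {f g : ℂ → ℂ} (hf : Ad f) (hg : Ad g) : Ad (fun z => f z - g z) :=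
  ⟨hf.1.sub hg.1, hf.2.sub hg.2⟩

lemma exists_R {f : ℂ → ℂ} (hf : Ad f) : ∃ R : ℝ, 1 ≤ R ∧ ∀ z, R < ‖z‖ → f z = 0 := by
  obtain ⟨R, hR⟩ := hf.2.isBounded.subset_closedBall (0 : ℂ)
  refine ⟨max R 1, le_max_right _ _, fun z hz => ?_⟩
  by_contra hne
  have h1 : z ∈ tsupport f := subset_tsupport f hne
  have h2 := hR h1
  rw [mem_closedBall_zero_iff] at h2
  exact absurd h2 (not_le.2 ((le_max_left _ _).trans_lt hz))

lemma vol_ball {R : ℝ} (hR : 1 ≤ R) : volume (Metric.closedBall (0 : ℂ) R) ≤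
    ENNReal.ofReal (4 * R ^ 2) := by
  rw [Complex.volume_closedBall]
  have h1 : (NNReal.pi : ENNReal) = ENNReal.ofReal Real.pi := by
    rw [ENNReal.ofReal, ← NNReal.coe_real_pi, Real.toNNReal_coe]
  rw [h1, ← ENNReal.ofReal_pow (by linarith), ← ENNReal.ofReal_mul (by positivity)]
  apply ENNReal.ofReal_le_ofReal
  nlinarith [Real.pi_le_four, sq_nonneg R, Real.pi_pos]

theorem step : S_DER → S_LIN → S_BD → S_STRIP → S_CUT → S_CALC → S_STEP := by
  intro hDER hLIN hBD hSTRIP hCUT hCALC k B ε c b hk hε hB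
  obtain ⟨R, hR1, hR⟩ := exists_R hk
  have hz0 : ContDiff ℝ ∞ (fun _ : ℝ => (0 : ℝ)) := contDiff_const
  obtain ⟨hdbk, hddk, -⟩ := hCALC b _ k hz0 hk
  obtain ⟨-, hddbk, -⟩ := hCALC b _ (db k) hz0 hdbk
  obtain ⟨M1, hM1⟩ := hk.2.exists_bound_of_continuous (ad_cont hk)
  obtain ⟨M2, hM2⟩ := hddk.2.exists_bound_of_continuous (ad_cont hddk)
  obtain ⟨M3, hM3⟩ := hdbk.2.exists_bound_of_continuous (ad_cont hdbk)
  obtain ⟨M4, hM4⟩ := hddbk.2.exists_bound_of_continuous (ad_cont hddbk)
  obtain ⟨M, hM, hMk, hMdd, hMdb, hMddb⟩ : ∃ M : ℝ, 1 ≤ M ∧ (∀ z, ‖k z‖ ≤ M) ∧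
      (∀ z, ‖dd k z‖ ≤ M) ∧ (∀ z, ‖db k z‖ ≤ M) ∧ (∀ z, ‖dd (db k) z‖ ≤ M) := by
    refine ⟨max 1 (max (max M1 M2) (max M3 M4)), le_max_left _ _, fun z => ?_, fun z => ?_,
      fun z => ?_, fun z => ?_⟩
    · exact (hM1 z).trans (by simp)
    · exact (hM2 z).trans (by simp)
    · exact (hM3 z).trans (by simp)
    · exact (hM4 z).trans (by simp)
  have hM0 : 0 < M := by linarith
  have hR0 : 0 < R := by linarith
  obtain ⟨r, hr, hrM⟩ : ∃ r : ℝ, 0 < r ∧ M * (2 * r) = ε / 4 := by
    refine ⟨ε / (8 * M), by positivity, ?_⟩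
    field_simp
    norm_num
  obtain ⟨s, hs, hs1, hs2⟩ : ∃ s : ℝ, 0 < s ∧ 4 * s * M * (3 + 4 * R ^ 2) ≤ ε / 4 ∧
      M * (4 * s * R / r) ≤ ε / 4 := by
    refine ⟨min (ε / (16 * M * (3 + 4 * R ^ 2))) (ε * r / (16 * M * R)), lt_min (by positivity)
      (by positivity), ?_, ?_⟩
    · have h1 := min_le_left (ε / (16 * M * (3 + 4 * R ^ 2))) (ε * r / (16 * M * R))
      rw [le_div_iff₀ (by positivity)] at h1
      nlinarith [h1]
    · have h1 := min_le_right (ε / (16 * M * (3 + 4 * R ^ 2))) (ε * r / (16 * M * R))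
      rw [le_div_iff₀ (by positivity)] at h1
      rw [← mul_div_assoc, div_le_iff₀ hr]
      nlinarith [h1]
  obtain ⟨h, hh, hh1, hh2, hh3, hh4⟩ := hCUT c s hs
  have hh' : ContDiff ℝ ∞ (deriv h) := by
    have := (contDiff_infty_iff_deriv.1 hh).2
    exact this
  obtain ⟨-, -, hG, hGdb, hGdd⟩ := hCALC b h k hh hk
  obtain ⟨-, -, hE, -, hEdd⟩ := hCALC b h (db k) hh hdbk
  obtain ⟨-, -, hW, -, -⟩ := hCALC b (deriv h) k hh' hk
  obtain ⟨-, -, hD, -, -⟩ := hCALC b h (dd (db k)) hh hddbk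
  obtain ⟨-, -, hV, -, -⟩ := hCALC b (deriv h) (db k) hh' hdbk
  obtain ⟨-, hWdd, -⟩ := hCALC b _ _ hz0 hW
  set H : ℂ → ℂ := fun z => ((h (co b z) : ℝ) : ℂ) with hHdef
  set H' : ℂ → ℂ := fun z => ((deriv h (co b z) : ℝ) : ℂ) with hH'def
  set th : ℂ := (if b then I / 2 else 1 / 2) with hth
  set th' : ℂ := (if b then -I / 2 else 1 / 2) with hth'
  have hthn : ‖th‖ = 1 / 2 := by
    rw [hth]; cases b <;> simp
  have hthn' : ‖th'‖ = 1 / 2 := by
    rw [hth']; cases b <;> simp
  have hth0 : th ≠ 0 := by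
    intro h0
    rw [h0] at hthn
    simp at hthn
  have hthi : ‖th⁻¹‖ = 2 := by
    rw [norm_inv, hthn]; norm_num
  have hHn : ∀ z, ‖H z‖ ≤ 2 * s := by
    intro z
    rw [hHdef]
    simp only [Complex.norm_real, Real.norm_eq_abs]
    rw [abs_of_nonneg (hh1 _).1]
    exact (hh1 _).2
  have hH'n : ∀ z, ‖H' z‖ ≤ 1 := by
    intro z
    rw [hH'def]
    simp only [Complex.norm_real, Real.norm_eq_abs]
    rw [abs_of_nonneg (hh2 _).1]
    exact (hh2 _).2
  -- the relation (1)
  have hTW : ∀ z, T (fun z => k z * H' z) z =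
      th⁻¹ * (k z * H z) + (-th⁻¹) * T (fun z => db k z * H z) z := by
    intro z
    have hfun : (fun z => k z * H' z) =
        fun w => th⁻¹ * db (fun z => k z * H z) w + (-th⁻¹) * (db k w * H w) := by
      funext w
      rw [hGdb w]
      field_simp
      ring
    obtain ⟨hGG, -⟩ := hCALC b _ _ hz0 hG
    rw [hfun]
    rw [hLIN (db (fun z => k z * H z)) (fun w => db k w * H w) (ad_cont hGG) hGG.2 (ad_cont hE) hE.2
      th⁻¹ (-th⁻¹) z]
    rw [((hDER _ hG).2 z).1]
  have hTE : ∀ z, ‖T (fun z => db k z * H z) z‖ ≤ 2 * s * M * (2 + 4 * R ^ 2) := by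
    intro z
    have h1 := hBD (fun z => db k z * H z) (2 * s * M) (4 * R ^ 2) 1 (Metric.closedBall 0 R)
      (ad_cont hE) hE.2 Metric.isClosed_closedBall.measurableSet (by positivity) (by positivity)
      one_pos
      (fun w => by
        rw [norm_mul]
        calc ‖db k w‖ * ‖H w‖ ≤ M * (2 * s) :=
              mul_le_mul (hMdb w) (hHn w) (norm_nonneg _) hM0.le
          _ = 2 * s * M := by ring)
      (fun w hw => by
        have hw' : R < ‖w‖ := by
          rw [mem_closedBall_zero_iff] at hw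
          exact not_le.1 hw
        rw [db_zero_out hR hw', zero_mul])
      (vol_ball hR1) z
    refine h1.trans (le_of_eq ?_)
    ring
  have hTD : ∀ z, ‖T (fun z => dd (db k) z * H z) z‖ ≤ 2 * s * M * (2 + 4 * R ^ 2) := by
    intro z
    have h1 := hBD (fun z => dd (db k) z * H z) (2 * s * M) (4 * R ^ 2) 1 (Metric.closedBall 0 R)
      (ad_cont hD) hD.2 Metric.isClosed_closedBall.measurableSet (by positivity) (by positivity)
      one_pos
      (fun w => by
        rw [norm_mul]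
        calc ‖dd (db k) w‖ * ‖H w‖ ≤ M * (2 * s) :=
              mul_le_mul (hMddb w) (hHn w) (norm_nonneg _) hM0.le
          _ = 2 * s * M := by ring)
      (fun w hw => by
        have hw' : R < ‖w‖ := by
          rw [mem_closedBall_zero_iff] at hw
          exact not_le.1 hw
        rw [dd_zero_out (fun z hz => db_zero_out hR hz) hw', zero_mul])
      (vol_ball hR1) z
    refine h1.trans (le_of_eq ?_)
    ring
  have hTV : ∀ z, ‖T (fun z => db k z * H' z) z‖ ≤ M * (2 * r + 4 * s * R / r) := by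
    intro z
    have hcl : IsClosed {w : ℂ | |co b w - c| ≤ s ∧ ‖w‖ ≤ R} := by
      refine IsClosed.inter ?_ ?_
      · exact isClosed_le (((co_cont b).sub continuous_const).abs) continuous_const
      · exact isClosed_le continuous_norm continuous_const
    refine hBD (fun z => db k z * H' z) M (4 * s * R) r {w : ℂ | |co b w - c| ≤ s ∧ ‖w‖ ≤ R}
      (ad_cont hV) hV.2 hcl.measurableSet hM0.le (by positivity) hr
      (fun w => by
        rw [norm_mul]
        calc ‖db k w‖ * ‖H' w‖ ≤ M * 1 :=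
              mul_le_mul (hMdb w) (hH'n w) (norm_nonneg _) hM0.le
          _ = M := by ring)
      (fun w hw => ?_)
      (hSTRIP b c s R hs.le hR0.le) z
    by_cases hw1 : R < ‖w‖
    · rw [db_zero_out hR hw1, zero_mul]
    · have hw2 : s ≤ |co b w - c| := by
        by_contra hcon
        exact hw ⟨(not_le.1 hcon).le, not_lt.1 hw1⟩
      have : H' w = 0 := by
        rw [hH'def]
        simp only
        rw [hh4 _ hw2]
        simp
      rw [this, mul_zero]
  refine ⟨fun z => k z - k z * H' z, ad_sub hk hW, ?_, ⟨s / 2, by positivity, ?_⟩, ?_, ?_⟩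
  · intro z hz
    simp [hz]
  · intro z hz
    have : H' z = 1 := by
      rw [hH'def]
      simp only
      rw [hh3 _ hz.le]
      simp
    simp only [this]
    ring
  · intro z
    have h1 : T (fun z => k z - k z * H' z) z = T k z - T (fun z => k z * H' z) z := by
      have h2 := hLIN k (fun z => k z * H' z) (ad_cont hk) hk.2 (ad_cont hW) hW.2 1 (-1) z
      have h3 : (fun z => k z - k z * H' z) = fun w => 1 * k w + (-1) * (k w * H' w) := by
        funext w; ring
      rw [h3, h2]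
      ring
    rw [h1, sub_sub_cancel_left, norm_neg, hTW z]
    have h2 : ‖th⁻¹ * (k z * H z) + -th⁻¹ * T (fun z => db k z * H z) z‖ ≤
        2 * (M * (2 * s)) + 2 * (2 * s * M * (2 + 4 * R ^ 2)) := by
      refine (norm_add_le _ _).trans (add_le_add ?_ ?_)
      · rw [norm_mul, hthi, norm_mul]
        exact mul_le_mul_of_nonneg_left
          (mul_le_mul (hMk z) (hHn z) (norm_nonneg _) hM0.le) (by norm_num)
      · rw [norm_mul, norm_neg, hthi]
        exact mul_le_mul_of_nonneg_left (hTE z) (by norm_num)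
    refine h2.trans ?_
    have : 2 * (M * (2 * s)) + 2 * (2 * s * M * (2 + 4 * R ^ 2)) = 4 * s * M * (3 + 4 * R ^ 2) := by
      ring
    rw [this]
    linarith
  · intro z
    have hddk' : dd (fun z => k z - k z * H' z) =
        fun w => 1 * dd k w + (-1) * dd (fun z => k z * H' z) w := by
      funext w
      have h3 : (fun z => k z - k z * H' z) = fun w => 1 * k w + (-1) * (k w * H' w) := by
        funext w; ring
      rw [h3]
      exact dd_lin 1 (-1) w (ad_diff hk w) (ad_diff hW w)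
    have hT1 : T (dd (fun z => k z - k z * H' z)) z =
        T (dd k) z - T (dd (fun z => k z * H' z)) z := by
      rw [hddk', hLIN (dd k) (dd (fun z => k z * H' z)) (ad_cont hddk) hddk.2 (ad_cont hWdd) hWdd.2
        1 (-1) z]
      ring
    have hT2 : T (dd (fun z => k z * H' z)) z =
        th⁻¹ * (dd k z * H z + k z * H' z * th') + (-th⁻¹) *
          (T (fun z => dd (db k) z * H z) z + th' * T (fun z => db k z * H' z) z) := by
      rw [← ((hDER _ hW).2 z).2.2]
      have h4 : T (fun z => k z * H' z) =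
          fun z => th⁻¹ * (k z * H z) + (-th⁻¹) * T (fun z => db k z * H z) z := funext hTW
      rw [h4]
      rw [dd_lin th⁻¹ (-th⁻¹) z (ad_diff hG z) ((hDER _ hE).1 z)]
      rw [hGdd z, ((hDER _ hE).2 z).2.2]
      have h5 : dd (fun z => db k z * H z) =
          fun w => 1 * (dd (db k) w * H w) + th' * (db k w * H' w) := by
        funext w
        rw [hEdd w]
        ring
      rw [h5, hLIN (fun w => dd (db k) w * H w) (fun w => db k w * H' w) (ad_cont hD) hD.2
        (ad_cont hV) hV.2 1 th' z]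
      ring
    have hk'n : ‖k z - k z * H' z‖ = ‖k z‖ * (1 - ‖H' z‖) := by
      have h6 : k z - k z * H' z = k z * (((1 - deriv h (co b z) : ℝ)) : ℂ) := by
        rw [hH'def]
        push_cast
        ring
      have h7 : ‖H' z‖ = deriv h (co b z) := by
        rw [hH'def]
        simp only [Complex.norm_real, Real.norm_eq_abs]
        exact abs_of_nonneg (hh2 _).1
      rw [h6, norm_mul, h7, Complex.norm_real, Real.norm_eq_abs,
        abs_of_nonneg (by linarith [(hh2 (co b z)).2])]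
    have hthth : ‖th⁻¹ * th'‖ = 1 := by
      rw [norm_mul, hthi, hthn']; norm_num
    have hT3 : ‖T (dd (fun z => k z - k z * H' z)) z‖ ≤ ‖T (dd k) z‖ +
        (2 * (M * (2 * s)) + ‖k z‖ * ‖H' z‖ + 2 * (2 * s * M * (2 + 4 * R ^ 2)) +
          M * (2 * r + 4 * s * R / r)) := by
      have h8 : T (dd (fun z => k z - k z * H' z)) z = T (dd k) z -
          (th⁻¹ * (dd k z * H z) + (th⁻¹ * th') * (k z * H' z) +
            (-(th⁻¹ * T (fun z => dd (db k) z * H z) z)) +
            (-((th⁻¹ * th') * T (fun z => db k z * H' z) z))) := by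
        rw [hT1, hT2]
        ring
      rw [h8]
      refine (norm_sub_le _ _).trans (add_le_add le_rfl ?_)
      refine (norm_add_le _ _).trans (add_le_add ?_ ?_)
      · refine (norm_add_le _ _).trans (add_le_add ?_ ?_)
        · refine (norm_add_le _ _).trans (add_le_add ?_ ?_)
          · rw [norm_mul, hthi, norm_mul]
            exact mul_le_mul_of_nonneg_left
              (mul_le_mul (hMdd z) (hHn z) (norm_nonneg _) hM0.le) (by norm_num)
          · rw [norm_mul, hthth, one_mul, norm_mul]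
        · rw [norm_neg, norm_mul, hthi]
          exact mul_le_mul_of_nonneg_left (hTD z) (by norm_num)
      · rw [norm_neg, norm_mul, hthth, one_mul]
        exact hTV z
    have h9 : ‖k z - k z * H' z‖ = ‖k z‖ - ‖k z‖ * ‖H' z‖ := by rw [hk'n]; ring
    have h10 := hB z
    have h11 : M * (2 * r + 4 * s * R / r) = M * (2 * r) + M * (4 * s * R / r) := by ring
    have h12 : 2 * (M * (2 * s)) + 2 * (2 * s * M * (2 + 4 * R ^ 2)) =
        4 * s * M * (3 + 4 * R ^ 2) := by ring
    have h13 : ‖T (dd (fun z => k z - k z * H' z)) z‖ + ‖k z - k z * H' z‖ ≤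
        ‖T (dd k) z‖ + ‖k z‖ + (2 * (M * (2 * s)) + 2 * (2 * s * M * (2 + 4 * R ^ 2))) +
          M * (2 * r + 4 * s * R / r) := by
      rw [h9]
      linarith [hT3]
    rw [h12, h11] at h13
    linarith

end Pool.Agent.W83.US
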